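import Mathlib

/-!
# MP_4b601f_co : escape sequences of rotor walks on trees are downward closed
-/

namespace Pool.Agent.Results.MP_4b601f_co.RotorWalk

open Classical

/-! ### The rotor walk

A rooted tree in which the root has degree one and all degrees are finite is given by a function
`b : List ℕ → ℕ`. The vertices other than the root `ρ` are addressed by lists: the child of the
root is `[]`, and the children of the vertex `v` are `v ++ [1], …, v ++ [b v]`. (Addresses that
are not of this form are never visited.) -/

/-- The parent of a vertex; `none` is the root. -/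
def up (v : List ℕ) : Option (List ℕ) := if v = [] then none else some v.dropLast

/-- One step of the rotor walk: advance the rotor, then move. At the root the walk stops. -/
def step (b : List ℕ → ℕ) (s : Option (List ℕ) × (List ℕ → ℕ)) :
    Option (List ℕ) × (List ℕ → ℕ) :=
  match s.1 with
  | none => s
  | some v =>
    (if (s.2 v + 1) % (b v + 1) = 0 then up v else some (v ++ [(s.2 v + 1) % (b v + 1)]),
      Function.update s.2 v ((s.2 v + 1) % (b v + 1)))

/-- Position and rotor configuration after `t` steps, for a particle that has just moved from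
the root to its child and finds the configuration `r`. -/
def walk (b : List ℕ → ℕ) (r : List ℕ → ℕ) (t : ℕ) : Option (List ℕ) × (List ℕ → ℕ) :=
  (step b)^[t] (some [], r)

/-- The particle never returns to the root. -/
def Escapes (b : List ℕ → ℕ) (r : List ℕ → ℕ) : Prop := ∀ t, (walk b r t).1 ≠ none

/-- The limiting rotor configuration after one particle. -/
noncomputable def after (b : List ℕ → ℕ) (r : List ℕ → ℕ) : List ℕ → ℕ := fun v =>
  if h : ∃ c, ∃ T, ∀ t ≥ T, (walk b r t).2 v = c then h.choose else 0

/-- The rotor configuration before particle `n + 1`. -/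
noncomputable def config (b : List ℕ → ℕ) (r : List ℕ → ℕ) : ℕ → (List ℕ → ℕ)
  | 0 => r
  | n + 1 => after b (config b r n)

/-- The escape sequence: `escSeq b r n` says that particle `n + 1` escapes. -/
def escSeq (b : List ℕ → ℕ) (r : List ℕ → ℕ) (n : ℕ) : Prop := Escapes b (config b r n)

/-! ### Decomposition at the first vertex -/

/-- The subtree at the `i`-th child of the first vertex. -/
def sub (b : List ℕ → ℕ) (i : ℕ) : List ℕ → ℕ := fun l => b (i :: l)

/-- The configuration with the subtree `i` replaced. -/
noncomputable def comb (i : ℕ) (R ρ : List ℕ → ℕ) : List ℕ → ℕ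
  | [] => R []
  | j :: l => if j = i then ρ l else R (j :: l)

/-- Lift of a state of the walk on the subtree. -/
noncomputable def lift (i : ℕ) (R : List ℕ → ℕ) (s : Option (List ℕ) × (List ℕ → ℕ)) :
    Option (List ℕ) × (List ℕ → ℕ) :=
  (match s.1 with
    | none => some []
    | some l => some (i :: l), comb i R s.2)

lemma step_some (b : List ℕ → ℕ) (v : List ℕ) (r : List ℕ → ℕ) :
    step b (some v, r) =
      (if (r v + 1) % (b v + 1) = 0 then up v else some (v ++ [(r v + 1) % (b v + 1)]),
        Function.update r v ((r v + 1) % (b v + 1))) := rfl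

lemma lift_some (i : ℕ) (R ρ : List ℕ → ℕ) (l : List ℕ) :
    lift i R (some l, ρ) = (some (i :: l), comb i R ρ) := rfl

lemma lift_none (i : ℕ) (R ρ : List ℕ → ℕ) :
    lift i R (none, ρ) = (some [], comb i R ρ) := rfl

lemma lift_step (b : List ℕ → ℕ) (i : ℕ) (R : List ℕ → ℕ)
    (s : Option (List ℕ) × (List ℕ → ℕ)) (h : s.1 ≠ none) :
    step b (lift i R s) = lift i R (step (sub b i) s) := by
  obtain ⟨p, ρ⟩ := s
  cases p with
  | none => exact absurd rfl h
  | some l =>
    rw [lift_some, step_some, step_some]
    have hk : comb i R ρ (i :: l) = ρ l := by simp [comb]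
    have hb : sub b i l = b (i :: l) := rfl
    have hc : ∀ k, Function.update (comb i R ρ) (i :: l) k =
        comb i R (Function.update ρ l k) := by
      intro k
      funext v
      cases v with
      | nil => simp [comb, Function.update]
      | cons j v =>
        by_cases hj : j = i
        · subst hj
          by_cases hv : v = l
          · subst hv; simp [comb]
          · simp [comb, Function.update, hv]
        · simp [comb, Function.update, hj]
    by_cases h0 : (ρ l + 1) % (b (i :: l) + 1) = 0
    · by_cases hl : l = []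
      · subst hl
        simp only [hk, hb, h0, if_true, hc, up]
        simp [lift_none]
      · simp only [hk, hb, h0, if_true, hc, up, hl, if_false]
        simp [lift_some, List.dropLast_cons_of_ne_nil hl]
    · simp only [hk, hb, h0, if_false, hc]
      simp [lift_some]

lemma lift_walk (b : List ℕ → ℕ) (i : ℕ) (R ρ : List ℕ → ℕ) (t : ℕ)
    (h : ∀ s < t, (walk (sub b i) ρ s).1 ≠ none) :
    (step b)^[t] (some [i], comb i R ρ) = lift i R (walk (sub b i) ρ t) := by
  induction t with
  | zero => rfl
  | succ t ih =>
    rw [Function.iterate_succ_apply', ih (fun s hs => h s (by omega)),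
      lift_step b i R _ (h t (by omega))]
    simp only [walk, Function.iterate_succ_apply']

lemma walk_succ (b r : List ℕ → ℕ) (t : ℕ) : walk b r (t + 1) = step b (walk b r t) := by
  simp only [walk, Function.iterate_succ_apply']

lemma walk_none (b r : List ℕ → ℕ) {t : ℕ} (h : (walk b r t).1 = none) {t' : ℕ}
    (ht : t ≤ t') : walk b r t' = walk b r t := by
  induction t', ht using Nat.le_induction with
  | base => rfl
  | succ n _ ih =>
    rw [walk_succ, ih]
    unfold step
    rw [h]

lemma walk_add (b r r' : List ℕ → ℕ) {s : ℕ} (h : walk b r s = (some [], r')) (t : ℕ) :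
    walk b r (s + t) = walk b r' t := by
  induction t with
  | zero => rw [Nat.add_zero, h]; rfl
  | succ t ih => rw [← Nat.add_assoc, walk_succ, walk_succ, ih]

lemma after_eq (b r : List ℕ → ℕ) (v : List ℕ) {c T : ℕ}
    (h : ∀ t ≥ T, (walk b r t).2 v = c) : after b r v = c := by
  have hex : ∃ c, ∃ T, ∀ t ≥ T, (walk b r t).2 v = c := ⟨c, T, h⟩
  unfold after
  rw [dif_pos hex]
  obtain ⟨T', hT'⟩ := hex.choose_spec
  rw [← hT' (max T T') (le_max_right _ _), h (max T T') (le_max_left _ _)]

lemma after_congr (b r b' r' : List ℕ → ℕ) (v v' : List ℕ) (s s' : ℕ)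
    (h : ∀ t, (walk b r (s + t)).2 v = (walk b' r' (s' + t)).2 v') :
    after b r v = after b' r' v' := by
  by_cases hex : ∃ c, ∃ T, ∀ t ≥ T, (walk b r t).2 v = c
  · obtain ⟨c, T, hc⟩ := hex
    rw [after_eq b r v hc]
    symm
    refine after_eq b' r' v' (T := s' + T) ?_
    intro t ht
    have h1 := h (t - s')
    rw [show s' + (t - s') = t by omega] at h1
    rw [← h1]
    exact hc _ (by omega)
  · have hex' : ¬ ∃ c, ∃ T, ∀ t ≥ T, (walk b' r' t).2 v' = c := by
      rintro ⟨c, T, hc⟩
      apply hex
      refine ⟨c, s + T, ?_⟩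
      intro t ht
      have h1 := h (t - s)
      rw [show s + (t - s) = t by omega] at h1
      rw [h1]
      exact hc _ (by omega)
    unfold after
    rw [dif_neg hex, dif_neg hex']

lemma after_of_none (b r : List ℕ → ℕ) {t : ℕ} (h : (walk b r t).1 = none) :
    after b r = (walk b r t).2 := by
  funext v
  refine after_eq b r v (T := t) ?_
  intro t' ht'
  rw [walk_none b r h ht']

lemma escapes_congr (b r r' : List ℕ → ℕ) {s : ℕ} (h : walk b r s = (some [], r')) :
    Escapes b r ↔ Escapes b r' := by
  constructor
  · intro he t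
    rw [← walk_add b r r' h t]
    exact he _
  · intro he t hn
    have h1 := he (t) 
    rw [← walk_add b r r' h t] at h1
    apply h1
    rw [walk_none b r hn (by omega)]
    exact hn

lemma after_congr' (b r r' : List ℕ → ℕ) {s : ℕ} (h : walk b r s = (some [], r')) :
    after b r = after b r' := by
  funext v
  refine after_congr b r b r' v v s 0 ?_
  intro t
  rw [walk_add b r r' h t, Nat.zero_add]

/-- F0 -/
lemma walk_last (b R : List ℕ → ℕ) (h : R [] = b []) :
    walk b R 1 = (none, Function.update R [] 0) := by
  simp [walk, step, h, up]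

lemma walk_first (b R : List ℕ → ℕ) (h : R [] < b []) :
    walk b R 1 = (some [R [] + 1], Function.update R [] (R [] + 1)) := by
  have h1 : (R [] + 1) % (b [] + 1) = R [] + 1 := Nat.mod_eq_of_lt (by omega)
  simp [walk, step, h1]

lemma comb_self (i : ℕ) (R : List ℕ → ℕ) : comb i R (sub R i) = R := by
  funext v
  cases v with
  | nil => rfl
  | cons j l =>
    by_cases hj : j = i
    · subst hj; simp [comb, sub]
    · simp [comb, hj]

lemma walk_sub (b R : List ℕ → ℕ) (h : R [] < b []) (t : ℕ)
    (ht : ∀ s < t, (walk (sub b (R [] + 1)) (sub R (R [] + 1)) s).1 ≠ none) :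
    walk b R (t + 1) = lift (R [] + 1) (Function.update R [] (R [] + 1))
      (walk (sub b (R [] + 1)) (sub R (R [] + 1)) t) := by
  have h1 := walk_first b R h
  have h2 : walk b R (t + 1) = (step b)^[t] (walk b R 1) := by
    simp only [walk, ← Function.iterate_add_apply]
  rw [h2, h1]
  have h3 : Function.update R [] (R [] + 1) =
      comb (R [] + 1) (Function.update R [] (R [] + 1)) (sub R (R [] + 1)) := by
    funext v
    cases v with
    | nil => rfl
    | cons j l =>
      by_cases hj : j = R [] + 1
      · subst hj; simp [comb, sub, Function.update]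
      · simp [comb, hj]
  conv_lhs => rw [h3]
  exact lift_walk b _ _ _ t ht

/-- F1 -/
lemma sub_returns (b R : List ℕ → ℕ) (h : R [] < b []) {τ : ℕ}
    (hτ : (walk (sub b (R [] + 1)) (sub R (R [] + 1)) τ).1 = none)
    (hmin : ∀ s < τ, (walk (sub b (R [] + 1)) (sub R (R [] + 1)) s).1 ≠ none) :
    walk b R (τ + 1) = (some [], comb (R [] + 1) (Function.update R [] (R [] + 1))
      (after (sub b (R [] + 1)) (sub R (R [] + 1)))) := by
  rw [walk_sub b R h τ hmin, after_of_none _ _ hτ]
  unfold lift
  rw [hτ]

lemma exists_min_return (b r : List ℕ → ℕ) (h : ¬ Escapes b r) :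
    ∃ τ, (walk b r τ).1 = none ∧ ∀ s < τ, (walk b r s).1 ≠ none := by
  unfold Escapes at h
  push Not at h
  exact ⟨Nat.find h, Nat.find_spec h, fun s hs => Nat.find_min h hs⟩

/-- F2 -/
lemma sub_escapes (b R : List ℕ → ℕ) (h : R [] < b [])
    (he : Escapes (sub b (R [] + 1)) (sub R (R [] + 1))) :
    Escapes b R ∧ after b R = comb (R [] + 1) (Function.update R [] (R [] + 1))
      (after (sub b (R [] + 1)) (sub R (R [] + 1))) := by
  have hw : ∀ t, walk b R (t + 1) = lift (R [] + 1) (Function.update R [] (R [] + 1))
      (walk (sub b (R [] + 1)) (sub R (R [] + 1)) t) := fun t =>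
    walk_sub b R h t (fun s _ => he s)
  refine ⟨?_, ?_⟩
  · intro t
    cases t with
    | zero => simp [walk]
    | succ t =>
      rw [hw t]
      unfold lift
      cases (walk (sub b (R [] + 1)) (sub R (R [] + 1)) t).1 <;> simp
  · funext v
    cases v with
    | nil =>
      refine after_eq b R [] (T := 1) ?_
      intro t ht
      obtain ⟨t, rfl⟩ := Nat.exists_eq_add_of_le' ht
      rw [hw t]
      rfl
    | cons j l =>
      by_cases hj : j = R [] + 1
      · subst hj
        have h1 : comb (R [] + 1) (Function.update R [] (R [] + 1))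
          (after (sub b (R [] + 1)) (sub R (R [] + 1))) ((R [] + 1) :: l) =
          after (sub b (R [] + 1)) (sub R (R [] + 1)) l := by simp [comb]
        rw [h1]
        refine after_congr _ _ _ _ _ _ 1 0 ?_
        intro t
        rw [Nat.add_comm 1 t, hw t, Nat.zero_add]
        simp [lift, comb]
      · have h1 : comb (R [] + 1) (Function.update R [] (R [] + 1))
          (after (sub b (R [] + 1)) (sub R (R [] + 1))) (j :: l) = R (j :: l) := by
          simp [comb, hj, Function.update]
        rw [h1]
        refine after_eq b R _ (T := 1) ?_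
        intro t ht
        obtain ⟨t, rfl⟩ := Nat.exists_eq_add_of_le' ht
        rw [hw t]
        simp [lift, comb, hj, Function.update]

/-- If the particle returns at time `t`, then every child it still has to try returns it
sooner. -/
lemma return_children (b : List ℕ → ℕ) : ∀ (t : ℕ) (R : List ℕ → ℕ),
    (walk b R t).1 = none → ∀ i, R [] < i → i ≤ b [] →
    ∃ t' < t, (walk (sub b i) (sub R i) t').1 = none := by
  intro t
  induction t using Nat.strong_induction_on with
  | _ t ih =>
    intro R hR i hi hib
    have hlt : R [] < b [] := by omega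
    have hne : ¬ Escapes (sub b (R [] + 1)) (sub R (R [] + 1)) := by
      intro he
      exact (sub_escapes b R hlt he).1 t hR
    obtain ⟨τ, hτ, hmin⟩ := exists_min_return _ _ hne
    have hw := sub_returns b R hlt hτ hmin
    have htτ : τ + 1 < t := by
      by_contra hle
      have := walk_none b R hR (show t ≤ τ + 1 by omega)
      rw [hw] at this
      rw [← this] at hR
      simp at hR
    by_cases hi1 : i = R [] + 1
    · subst hi1
      exact ⟨τ, by omega, hτ⟩
    · obtain ⟨u, hu⟩ := Nat.exists_eq_add_of_lt htτ
      have h1 := walk_add b R _ hw (u + 1)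
      rw [show τ + 1 + (u + 1) = t by omega] at h1
      rw [h1] at hR
      obtain ⟨t', ht', hn⟩ := ih (u + 1) (by omega) _ hR i
        (by simp only [comb, Function.update_self]; omega) hib
      refine ⟨t', by omega, ?_⟩
      have h2 : sub (comb (R [] + 1) (Function.update R [] (R [] + 1))
        (after (sub b (R [] + 1)) (sub R (R [] + 1)))) i = sub R i := by
        funext l
        simp [sub, comb, hi1, Function.update]
      rw [h2] at hn
      exact hn

/-! ### The local rule -/

/-- The children that can take the particle. -/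
def cand (b k : ℕ) (y : ℕ → ℕ → Prop) : Set ℕ := {i | k < i ∧ i ≤ b ∧ y i 0}

/-- The new value of the rotor at the first vertex. -/
noncomputable def nextk (b k : ℕ) (y : ℕ → ℕ → Prop) : ℕ :=
  if (cand b k y).Nonempty then sInf (cand b k y) else 0

/-- The last child tried. -/
noncomputable def bound (b k : ℕ) (y : ℕ → ℕ → Prop) : ℕ :=
  if (cand b k y).Nonempty then sInf (cand b k y) else b

/-- The remaining sequences of the children. -/
noncomputable def nexty (b k : ℕ) (y : ℕ → ℕ → Prop) : ℕ → ℕ → Prop := fun j n =>
  if k < j ∧ j ≤ bound b k y then y j (n + 1) else y j n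

/-- The sequence at a vertex from the rotor value and the sequences of the children. -/
noncomputable def seq (b : ℕ) : ℕ → ℕ → (ℕ → ℕ → Prop) → Prop
  | 0, k, y => (cand b k y).Nonempty
  | n + 1, k, y => seq b n (nextk b k y) (nexty b k y)

/-- The escape sequences of the subtrees. -/
def ys (b R : List ℕ → ℕ) : ℕ → ℕ → Prop := fun j => escSeq (sub b j) (sub R j)

lemma config_succ' (b r : List ℕ → ℕ) (n : ℕ) :
    config b r (n + 1) = config b (after b r) n := by
  induction n with
  | zero => rfl
  | succ n ih =>
    show after b (config b r (n + 1)) = after b (config b (after b r) n)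
    rw [ih]

lemma escSeq_succ (b r : List ℕ → ℕ) (n : ℕ) :
    escSeq b r (n + 1) = escSeq b (after b r) n := by
  unfold escSeq
  rw [config_succ']

lemma sub_comb_self (i : ℕ) (R ρ : List ℕ → ℕ) : sub (comb i R ρ) i = ρ := by
  funext l; simp [sub, comb]

lemma sub_comb_ne {i j : ℕ} (h : j ≠ i) (R ρ : List ℕ → ℕ) : sub (comb i R ρ) j = sub R j := by
  funext l; simp [sub, comb, h]

lemma sub_update (j : ℕ) (R : List ℕ → ℕ) (c : ℕ) : sub (Function.update R [] c) j = sub R j := by
  funext l; simp [sub, Function.update]

lemma sInf_cand_mem {b k : ℕ} {y : ℕ → ℕ → Prop} (h : (cand b k y).Nonempty) :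
    sInf (cand b k y) ∈ cand b k y := Nat.sInf_mem h

lemma local_aux (b : List ℕ → ℕ) : ∀ (d : ℕ) (R : List ℕ → ℕ), R [] + d = b [] →
    (Escapes b R ↔ (cand (b []) (R []) (ys b R)).Nonempty) ∧
    (after b R) [] = nextk (b []) (R []) (ys b R) ∧
    ys b (after b R) = nexty (b []) (R []) (ys b R) := by
  intro d
  induction d with
  | zero =>
    intro R hR
    have h0 : R [] = b [] := by omega
    have hw := walk_last b R h0
    have hcand : cand (b []) (R []) (ys b R) = ∅ := by
      ext i
      simp only [cand, Set.mem_ofPred_eq, Set.mem_empty_iff_false, iff_false]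
      rintro ⟨h1, h2, _⟩
      omega
    have ha : after b R = Function.update R [] 0 := by
      rw [after_of_none b R (t := 1) (by rw [hw]), hw]
    refine ⟨?_, ?_, ?_⟩
    · rw [hcand]
      simp only [Set.not_nonempty_empty, iff_false]
      intro he
      exact he 1 (by rw [hw])
    · rw [ha]
      simp [nextk, hcand]
    · rw [ha]
      funext j n
      unfold ys nexty
      rw [sub_update, if_neg]
      rintro ⟨h1, h2⟩
      simp only [bound] at h2
      rw [show (fun j => escSeq (sub b j) (sub R j)) = ys b R from rfl, hcand] at h2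
      simp at h2
      omega
  | succ d ih =>
    intro R hR
    have hlt : R [] < b [] := by omega
    by_cases he : Escapes (sub b (R [] + 1)) (sub R (R [] + 1))
    · obtain ⟨h1, h2⟩ := sub_escapes b R hlt he
      have hmem : R [] + 1 ∈ cand (b []) (R []) (ys b R) := ⟨by omega, by omega, he⟩
      have hne : (cand (b []) (R []) (ys b R)).Nonempty := ⟨_, hmem⟩
      have hinf : sInf (cand (b []) (R []) (ys b R)) = R [] + 1 := by
        have h3 := Nat.sInf_le hmem
        have h4 := (sInf_cand_mem hne).1
        omega
      refine ⟨iff_of_true h1 hne, ?_, ?_⟩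
      · rw [h2]
        simp [comb, nextk, hne, hinf]
      · rw [h2]
        funext j n
        unfold nexty bound
        rw [if_pos hne, hinf]
        by_cases hj : j = R [] + 1
        · subst hj
          rw [if_pos ⟨by omega, le_rfl⟩]
          unfold ys
          rw [sub_comb_self, ← escSeq_succ]
        · rw [if_neg (by omega)]
          unfold ys
          rw [sub_comb_ne hj, sub_update]
    · obtain ⟨τ, hτ, hmin⟩ := exists_min_return _ _ he
      have hw := sub_returns b R hlt hτ hmin
      set R' := comb (R [] + 1) (Function.update R [] (R [] + 1))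
        (after (sub b (R [] + 1)) (sub R (R [] + 1))) with hR'
      have hR'0 : R' [] = R [] + 1 := by simp [hR', comb]
      obtain ⟨i1, i2, i3⟩ := ih R' (by rw [hR'0]; omega)
      have hys : ∀ j n, ys b R' j n = if j = R [] + 1 then ys b R j (n + 1) else ys b R j n := by
        intro j n
        by_cases hj : j = R [] + 1
        · subst hj
          rw [if_pos rfl]
          unfold ys
          rw [hR', sub_comb_self, ← escSeq_succ]
        · rw [if_neg hj]
          unfold ys
          rw [hR', sub_comb_ne hj, sub_update]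
      have hcand : cand (b []) (R' []) (ys b R') = cand (b []) (R []) (ys b R) := by
        ext i
        simp only [cand, Set.mem_ofPred_eq, hR'0]
        constructor
        · rintro ⟨h1, h2, h3⟩
          rw [hys, if_neg (by omega)] at h3
          exact ⟨by omega, h2, h3⟩
        · rintro ⟨h1, h2, h3⟩
          have hi : i ≠ R [] + 1 := by
            rintro rfl
            exact he h3
          refine ⟨by omega, h2, ?_⟩
          rw [hys, if_neg hi]
          exact h3
      rw [escapes_congr b R R' hw, after_congr' b R R' hw, i1, i2, i3]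
      have hnk : nextk (b []) (R' []) (ys b R') = nextk (b []) (R []) (ys b R) := by
        unfold nextk
        rw [hcand]
      have hbd : bound (b []) (R' []) (ys b R') = bound (b []) (R []) (ys b R) := by
        unfold bound
        rw [hcand]
      refine ⟨by rw [hcand], hnk, ?_⟩
      funext j n
      unfold nexty
      rw [hbd, hR'0]
      have hbge : R [] + 1 ≤ bound (b []) (R []) (ys b R) := by
        unfold bound
        split_ifs with hne
        · have := (sInf_cand_mem hne).1
          omega
        · omega
      by_cases hj : j = R [] + 1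
      · subst hj
        rw [if_neg (by omega), if_pos ⟨by omega, hbge⟩, hys, if_pos rfl]
      · by_cases hj2 : R [] < j ∧ j ≤ bound (b []) (R []) (ys b R)
        · rw [if_pos ⟨by omega, hj2.2⟩, if_pos hj2, hys, if_neg hj]
        · rw [if_neg (by omega), if_neg hj2, hys, if_neg hj]

lemma walk_valid (b r : List ℕ → ℕ) (hr : ∀ v, r v ≤ b v) (t : ℕ) (v : List ℕ) :
    (walk b r t).2 v ≤ b v := by
  induction t with
  | zero => exact hr v
  | succ t ih =>
    rw [walk_succ]
    cases hw : walk b r t with
    | mk p ρ =>
      rw [hw] at ih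
      cases p with
      | none => exact ih
      | some u =>
        rw [step_some]
        by_cases hv : v = u
        · subst hv
          simp only [Function.update_self]
          have := Nat.mod_lt (ρ v + 1) (show 0 < b v + 1 by omega)
          omega
        · simp only [Function.update, hv]
          exact ih

lemma after_valid (b r : List ℕ → ℕ) (hr : ∀ v, r v ≤ b v) (v : List ℕ) :
    after b r v ≤ b v := by
  unfold after
  split_ifs with h
  · obtain ⟨T, hT⟩ := h.choose_spec
    rw [← hT T le_rfl]
    exact walk_valid b r hr T v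
  · omega

lemma escSeq_local (b : List ℕ → ℕ) : ∀ (n : ℕ) (r : List ℕ → ℕ), (∀ v, r v ≤ b v) →
    (escSeq b r n ↔ seq (b []) n (r []) (ys b r)) := by
  intro n
  induction n with
  | zero =>
    intro r hr
    exact (local_aux b (b [] - r []) r (by have := hr []; omega)).1
  | succ n ih =>
    intro r hr
    obtain ⟨_, h2, h3⟩ := local_aux b (b [] - r []) r (by have := hr []; omega)
    rw [escSeq_succ, ih _ (after_valid b r hr), h2, h3]
    rfl

/-! ### Labelled sequences -/

/-- Number of zeros before position `n`. -/
noncomputable def blk (x : ℕ → Prop) (n : ℕ) : ℕ := Nat.count (fun m => ¬ x m) n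

/-- Number of ones before position `n`. -/
noncomputable def ones (x : ℕ → Prop) (n : ℕ) : ℕ := Nat.count x n

lemma blk_zero (x : ℕ → Prop) : blk x 0 = 0 := by simp [blk]

lemma blk_succ (x : ℕ → Prop) (n : ℕ) : blk x (n + 1) = blk x n + if x n then 0 else 1 := by
  unfold blk
  rw [Nat.count_succ]
  by_cases h : x n <;> simp [h]

lemma ones_succ (x : ℕ → Prop) (n : ℕ) : ones x (n + 1) = ones x n + if x n then 1 else 0 := by
  unfold ones
  rw [Nat.count_succ]

lemma ones_zero (x : ℕ → Prop) : ones x 0 = 0 := by simp [ones]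

lemma ones_add_blk (x : ℕ → Prop) (n : ℕ) : ones x n + blk x n = n := by
  induction n with
  | zero => simp [blk_zero, ones_zero]
  | succ n ih =>
    rw [ones_succ, blk_succ]
    by_cases h : x n
    · simp only [h, if_true]; omega
    · simp only [h, if_false]; omega

lemma blk_shift (x : ℕ → Prop) (n : ℕ) :
    blk x (n + 1) = blk (fun m => x (m + 1)) n + if x 0 then 0 else 1 := by
  induction n with
  | zero => rw [blk_succ, blk_zero, blk_zero]
  | succ n ih =>
    rw [blk_succ, ih, blk_succ]
    omega

lemma blk_mono (x : ℕ → Prop) {m n : ℕ} (h : m ≤ n) : blk x m ≤ blk x n := by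
  induction n, h using Nat.le_induction with
  | base => exact le_rfl
  | succ n _ ih => rw [blk_succ]; omega

lemma ones_mono (x : ℕ → Prop) {m n : ℕ} (h : m ≤ n) : ones x m ≤ ones x n := by
  induction n, h using Nat.le_induction with
  | base => exact le_rfl
  | succ n _ ih => rw [ones_succ]; omega

lemma ones_lt (x : ℕ → Prop) {m n : ℕ} (h : m < n) (hx : x m) : ones x m + 1 ≤ ones x n := by
  have h1 := ones_mono x (show m + 1 ≤ n from h)
  rw [ones_succ, if_pos hx] at h1
  exact h1

/-- The sequence `x` has the labels `lam` on its ones and splits into the sequences `y i`. -/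
structure Loc (b k : ℕ) (x : ℕ → Prop) (y : ℕ → ℕ → Prop) (lam : ℕ → ℕ) : Prop where
  rng : ∀ n, x n → 1 ≤ lam n ∧ lam n ≤ b
  first : ∀ n, x n → blk x n = 0 → k < lam n
  inc : ∀ n m, n < m → x n → x m → blk x n = blk x m → lam n < lam m
  iff : ∀ i β, 1 ≤ i → i ≤ b →
    (y i β ↔ ∃ n, x n ∧ lam n = i ∧ blk x n = β + (if i ≤ k then 1 else 0))

lemma Loc.head {b k : ℕ} {x : ℕ → Prop} {y : ℕ → ℕ → Prop} {lam : ℕ → ℕ}
    (h : Loc b k x y lam) : x 0 ↔ (cand b k y).Nonempty := by
  constructor
  · intro h0
    have h1 := h.rng 0 h0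
    have h2 := h.first 0 h0 (blk_zero x)
    refine ⟨lam 0, h2, h1.2, ?_⟩
    rw [h.iff (lam 0) 0 h1.1 h1.2]
    exact ⟨0, h0, rfl, by rw [blk_zero, if_neg (by omega)]⟩
  · rintro ⟨i, h1, h2, h3⟩
    rw [h.iff i 0 (by omega) h2] at h3
    obtain ⟨n, hn, _, hb⟩ := h3
    rw [if_neg (by omega)] at hb
    cases n with
    | zero => exact hn
    | succ n =>
      rw [blk_shift] at hb
      by_contra h0
      rw [if_neg h0] at hb
      omega

lemma Loc.nextk {b k : ℕ} {x : ℕ → Prop} {y : ℕ → ℕ → Prop} {lam : ℕ → ℕ}
    (h : Loc b k x y lam) (h0 : x 0) : sInf (cand b k y) = lam 0 := by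
  have h1 := h.rng 0 h0
  have h2 := h.first 0 h0 (blk_zero x)
  have hmem : lam 0 ∈ cand b k y := by
    refine ⟨h2, h1.2, ?_⟩
    rw [h.iff (lam 0) 0 h1.1 h1.2]
    exact ⟨0, h0, rfl, by rw [blk_zero, if_neg (by omega)]⟩
  apply le_antisymm (Nat.sInf_le hmem)
  obtain ⟨a1, a2, a3⟩ := sInf_cand_mem (⟨_, hmem⟩ : (cand b k y).Nonempty)
  rw [h.iff _ 0 (by omega) a2] at a3
  obtain ⟨n, hn, hl, hb⟩ := a3
  rw [if_neg (by omega)] at hb
  rw [← hl]
  rcases Nat.eq_zero_or_pos n with rfl | hpos
  · exact le_rfl
  · exact (h.inc 0 n hpos h0 hn (by rw [blk_zero, hb])).le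

lemma Loc.shift {b k : ℕ} {x : ℕ → Prop} {y : ℕ → ℕ → Prop} {lam : ℕ → ℕ}
    (h : Loc b k x y lam) :
    Loc b (RotorWalk.nextk b k y) (fun n => x (n + 1)) (nexty b k y) (fun n => lam (n + 1)) := by
  have hh := h.head
  by_cases h0 : x 0
  · have hne := hh.1 h0
    have hinf := h.nextk h0
    have hnk : RotorWalk.nextk b k y = lam 0 := by
      unfold RotorWalk.nextk; rw [if_pos hne, hinf]
    have hbd : bound b k y = lam 0 := by
      unfold bound; rw [if_pos hne, hinf]
    have hk := h.first 0 h0 (blk_zero x)
    have hbs : ∀ n, blk (fun m => x (m + 1)) n = blk x (n + 1) := by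
      intro n; rw [blk_shift, if_pos h0, Nat.add_zero]
    rw [hnk]
    refine ⟨?_, ?_, ?_, ?_⟩
    · intro n hn; exact h.rng _ hn
    · intro n hn hb
      rw [hbs] at hb
      exact h.inc 0 (n + 1) (by omega) h0 hn (by rw [blk_zero, hb])
    · intro n m hnm hn hm hb
      rw [hbs, hbs] at hb
      exact h.inc _ _ (by omega) hn hm hb
    · intro i β hi hib
      unfold nexty
      rw [hbd]
      by_cases h1 : k < i ∧ i ≤ lam 0
      · rw [if_pos h1, if_pos h1.2, h.iff i (β + 1) hi hib, if_neg (by omega)]
        constructor
        · rintro ⟨n, hn, hl, hb⟩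
          cases n with
          | zero => rw [blk_zero] at hb; omega
          | succ n => exact ⟨n, hn, hl, by rw [hbs, hb]⟩
        · rintro ⟨n, hn, hl, hb⟩
          exact ⟨n + 1, hn, hl, by rw [← hbs, hb]⟩
      · rw [if_neg h1, h.iff i β hi hib]
        by_cases h2 : i ≤ k
        · rw [if_pos h2, if_pos (by omega)]
          constructor
          · rintro ⟨n, hn, hl, hb⟩
            cases n with
            | zero => rw [blk_zero] at hb; omega
            | succ n => exact ⟨n, hn, hl, by rw [hbs, hb]⟩
          · rintro ⟨n, hn, hl, hb⟩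
            exact ⟨n + 1, hn, hl, by rw [← hbs, hb]⟩
        · have h3 : lam 0 < i := by
            by_contra hle
            exact h1 ⟨by omega, by omega⟩
          rw [if_neg h2, if_neg (by omega)]
          constructor
          · rintro ⟨n, hn, hl, hb⟩
            cases n with
            | zero => omega
            | succ n => exact ⟨n, hn, hl, by rw [hbs, hb]⟩
          · rintro ⟨n, hn, hl, hb⟩
            exact ⟨n + 1, hn, hl, by rw [← hbs, hb]⟩
  · have hne : ¬ (cand b k y).Nonempty := fun hc => h0 (hh.2 hc)
    have hnk : RotorWalk.nextk b k y = 0 := by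
      unfold RotorWalk.nextk; rw [if_neg hne]
    have hbd : bound b k y = b := by
      unfold bound; rw [if_neg hne]
    have hbs : ∀ n, blk x (n + 1) = blk (fun m => x (m + 1)) n + 1 := by
      intro n; rw [blk_shift, if_neg h0]
    rw [hnk]
    refine ⟨?_, ?_, ?_, ?_⟩
    · intro n hn; exact h.rng _ hn
    · intro n hn _
      exact (h.rng _ hn).1
    · intro n m hnm hn hm hb
      exact h.inc _ _ (by omega) hn hm (by rw [hbs, hbs, hb])
    · intro i β hi hib
      unfold nexty
      rw [hbd]
      by_cases h1 : k < i
      · rw [if_pos ⟨h1, hib⟩, if_neg (by omega), h.iff i (β + 1) hi hib, if_neg (by omega)]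
        constructor
        · rintro ⟨n, hn, hl, hb⟩
          cases n with
          | zero => exact absurd hn h0
          | succ n => exact ⟨n, hn, hl, by have := hbs n; omega⟩
        · rintro ⟨n, hn, hl, hb⟩
          exact ⟨n + 1, hn, hl, by have := hbs n; omega⟩
      · rw [if_neg (by omega), if_neg (by omega), h.iff i β hi hib, if_pos (by omega)]
        constructor
        · rintro ⟨n, hn, hl, hb⟩
          cases n with
          | zero => exact absurd hn h0
          | succ n => exact ⟨n, hn, hl, by have := hbs n; omega⟩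
        · rintro ⟨n, hn, hl, hb⟩
          exact ⟨n + 1, hn, hl, by have := hbs n; omega⟩

/-- T1 -/
lemma Loc.eq_seq {b : ℕ} : ∀ (n k : ℕ) (x : ℕ → Prop) (y : ℕ → ℕ → Prop) (lam : ℕ → ℕ),
    Loc b k x y lam → (x n ↔ seq b n k y) := by
  intro n
  induction n with
  | zero => intro k x y lam h; exact h.head
  | succ n ih =>
    intro k x y lam h
    exact ih _ _ _ _ h.shift

/-- The labels of the sequence at a vertex. -/
noncomputable def lab (b : ℕ) : ℕ → ℕ → (ℕ → ℕ → Prop) → ℕ
  | 0, k, y => RotorWalk.nextk b k y
  | n + 1, k, y => lab b n (RotorWalk.nextk b k y) (nexty b k y)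

lemma nextk_pos {b k : ℕ} {y : ℕ → ℕ → Prop} (h : (cand b k y).Nonempty) :
    k < RotorWalk.nextk b k y ∧ RotorWalk.nextk b k y ≤ b := by
  unfold RotorWalk.nextk
  rw [if_pos h]
  have := sInf_cand_mem h
  exact ⟨this.1, this.2.1⟩

lemma seq_shift (b k : ℕ) (y : ℕ → ℕ → Prop) :
    (fun n => seq b (n + 1) k y) = fun n => seq b n (RotorWalk.nextk b k y) (nexty b k y) := rfl

lemma lab_rng {b : ℕ} : ∀ (n k : ℕ) (y : ℕ → ℕ → Prop), seq b n k y →
    1 ≤ lab b n k y ∧ lab b n k y ≤ b := by
  intro n
  induction n with
  | zero =>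
    intro k y h
    have := nextk_pos h
    exact ⟨by simp only [lab]; omega, this.2⟩
  | succ n ih => intro k y h; exact ih _ _ h

lemma blk_seq_shift (b k : ℕ) (y : ℕ → ℕ → Prop) (n : ℕ) :
    blk (fun m => seq b m k y) (n + 1) =
      blk (fun m => seq b m (RotorWalk.nextk b k y) (nexty b k y)) n +
        if (cand b k y).Nonempty then 0 else 1 := by
  rw [blk_shift]
  rfl

lemma lab_first {b : ℕ} : ∀ (n k : ℕ) (y : ℕ → ℕ → Prop), seq b n k y →
    blk (fun m => seq b m k y) n = 0 → k < lab b n k y := by
  intro n
  induction n with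
  | zero => intro k y h _; exact (nextk_pos h).1
  | succ n ih =>
    intro k y h hb
    rw [blk_seq_shift] at hb
    by_cases hc : (cand b k y).Nonempty
    · rw [if_pos hc] at hb
      have h1 := ih _ _ h hb
      have h2 := (nextk_pos hc).1
      show k < lab b n (RotorWalk.nextk b k y) (nexty b k y)
      omega
    · rw [if_neg hc] at hb
      omega

lemma lab_inc {b : ℕ} : ∀ (n m k : ℕ) (y : ℕ → ℕ → Prop), n < m → seq b n k y → seq b m k y →
    blk (fun m => seq b m k y) n = blk (fun m => seq b m k y) m →
    lab b n k y < lab b m k y := by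
  intro n
  induction n with
  | zero =>
    intro m k y hm h0 hm' hb
    obtain ⟨m, rfl⟩ := Nat.exists_eq_add_of_lt hm
    rw [Nat.zero_add] at hm' hb ⊢
    rw [blk_zero, blk_seq_shift, if_pos (show (cand b k y).Nonempty from h0),
      Nat.add_zero] at hb
    exact lab_first m _ _ hm' hb.symm
  | succ n ih =>
    intro m k y hm hn hm' hb
    cases m with
    | zero => omega
    | succ m =>
      rw [blk_seq_shift, blk_seq_shift] at hb
      exact ih m _ _ (by omega) hn hm' (by omega)

/-- One step for a single child. -/
lemma lab_iff_mp {b i : ℕ} (hi : 1 ≤ i) (hib : i ≤ b) : ∀ (n k : ℕ) (y : ℕ → ℕ → Prop) (β : ℕ),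
    seq b n k y → lab b n k y = i →
    blk (fun m => seq b m k y) n = β + (if i ≤ k then 1 else 0) → y i β := by
  intro n
  induction n with
  | zero =>
    intro k y β h hl hb
    rw [blk_zero] at hb
    have h1 := nextk_pos h
    have h2 : RotorWalk.nextk b k y = i := hl
    rw [if_neg (by omega)] at hb
    have h3 : sInf (cand b k y) = i := by
      unfold RotorWalk.nextk at h2
      rwa [if_pos (show (cand b k y).Nonempty from h)] at h2
    have h4 := (sInf_cand_mem (show (cand b k y).Nonempty from h)).2.2
    rw [h3] at h4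
    have : β = 0 := by omega
    rw [this]
    exact h4
  | succ n ih =>
    intro k y β h hl hb
    rw [blk_seq_shift] at hb
    have key : ∀ β', blk (fun m => seq b m (RotorWalk.nextk b k y) (nexty b k y)) n =
        β' + (if i ≤ RotorWalk.nextk b k y then 1 else 0) → nexty b k y i β' := fun β' hβ' =>
      ih _ _ β' h hl hβ'
    have hfirst := lab_first n _ _ h
    rw [show lab b n (RotorWalk.nextk b k y) (nexty b k y) = i from hl] at hfirst
    by_cases hc : (cand b k y).Nonempty
    · have hp := nextk_pos hc
      have hbd : bound b k y = RotorWalk.nextk b k y := by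
        unfold bound RotorWalk.nextk; rw [if_pos hc, if_pos hc]
      rw [if_pos hc] at hb
      by_cases h1 : i ≤ k
      · rw [if_pos h1] at hb
        have := key β (by rw [if_pos (by omega)]; omega)
        unfold nexty at this
        rwa [if_neg (by omega)] at this
      · rw [if_neg h1] at hb
        by_cases h2 : i ≤ RotorWalk.nextk b k y
        · have hβ : β ≠ 0 := by
            rintro rfl
            have := hfirst (by omega)
            omega
          have := key (β - 1) (by rw [if_pos h2]; omega)
          unfold nexty at this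
          rw [if_pos ⟨by omega, by omega⟩] at this
          rwa [show β - 1 + 1 = β by omega] at this
        · have := key β (by rw [if_neg h2]; omega)
          unfold nexty at this
          rwa [if_neg (by omega)] at this
    · have hnk : RotorWalk.nextk b k y = 0 := by
        unfold RotorWalk.nextk; rw [if_neg hc]
      have hbd : bound b k y = b := by
        unfold bound; rw [if_neg hc]
      rw [if_neg hc] at hb
      rw [hnk] at key hb
      by_cases h1 : i ≤ k
      · rw [if_pos h1] at hb
        have := key β (by rw [if_neg (by omega)]; omega)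
        unfold nexty at this
        rwa [if_neg (by omega)] at this
      · rw [if_neg h1] at hb
        have := key (β - 1) (by rw [if_neg (by omega)]; omega)
        unfold nexty at this
        rw [if_pos ⟨by omega, by omega⟩] at this
        rwa [show β - 1 + 1 = β by omega] at this

lemma lab_iff_mpr {b i : ℕ} (hi : 1 ≤ i) (hib : i ≤ b) : ∀ (M k : ℕ) (y : ℕ → ℕ → Prop) (β : ℕ),
    (β + (if i ≤ k then 1 else 0)) * (b + 1) + (b - k) = M → k ≤ b → y i β →
    ∃ n, seq b n k y ∧ lab b n k y = i ∧
      blk (fun m => seq b m k y) n = β + (if i ≤ k then 1 else 0) := by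
  intro M
  induction M using Nat.strong_induction_on with
  | _ M ih =>
    intro k y β hM hkb hy
    -- it is enough to solve the problem for the next state
    have lift : ∀ β', (β' + (if i ≤ RotorWalk.nextk b k y then 1 else 0)) * (b + 1) +
        (b - RotorWalk.nextk b k y) < M → RotorWalk.nextk b k y ≤ b →
        nexty b k y i β' →
        β' + (if i ≤ RotorWalk.nextk b k y then 1 else 0) +
          (if (cand b k y).Nonempty then 0 else 1) = β + (if i ≤ k then 1 else 0) →
        ∃ n, seq b n k y ∧ lab b n k y = i ∧
          blk (fun m => seq b m k y) n = β + (if i ≤ k then 1 else 0) := by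
      intro β' h1 h2 h3 h4
      obtain ⟨n, hn1, hn2, hn3⟩ := ih _ h1 _ _ β' rfl h2 h3
      refine ⟨n + 1, hn1, hn2, ?_⟩
      rw [blk_seq_shift, hn3, h4]
    by_cases hc : (cand b k y).Nonempty
    · have hp := nextk_pos hc
      have hbd : bound b k y = RotorWalk.nextk b k y := by
        unfold bound RotorWalk.nextk; rw [if_pos hc, if_pos hc]
      have hinf : sInf (cand b k y) = RotorWalk.nextk b k y := by
        unfold RotorWalk.nextk; rw [if_pos hc]
      by_cases h1 : i ≤ k
      · refine lift β ?_ hp.2 ?_ ?_
        · rw [if_pos (by omega)]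
          rw [if_pos h1] at hM
          rw [← hM]
          omega
        · unfold nexty
          rwa [if_neg (by omega)]
        · rw [if_pos h1, if_pos (by omega), if_pos hc]
      · by_cases h2 : i ≤ RotorWalk.nextk b k y
        · rcases Nat.eq_zero_or_pos β with rfl | hβ
          · -- then `i` is the next child
            have hmem : i ∈ cand b k y := ⟨by omega, hib, hy⟩
            have h3 := Nat.sInf_le hmem
            refine ⟨0, hc, ?_, ?_⟩
            · show RotorWalk.nextk b k y = i
              omega
            · rw [blk_zero, if_neg h1]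
          · refine lift (β - 1) ?_ hp.2 ?_ ?_
            · rw [if_pos h2]
              rw [if_neg h1] at hM
              rw [show β - 1 + 1 = β + 0 by omega, ← hM]
              omega
            · unfold nexty
              rw [if_pos ⟨by omega, by omega⟩, show β - 1 + 1 = β by omega]
              exact hy
            · rw [if_neg h1, if_pos h2, if_pos hc]
              omega
        · refine lift β ?_ hp.2 ?_ ?_
          · rw [if_neg h2]
            rw [if_neg h1] at hM
            rw [← hM]
            omega
          · unfold nexty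
            rwa [if_neg (by omega)]
          · rw [if_neg h1, if_neg h2, if_pos hc]
    · have hnk : RotorWalk.nextk b k y = 0 := by
        unfold RotorWalk.nextk; rw [if_neg hc]
      have hbd : bound b k y = b := by
        unfold bound; rw [if_neg hc]
      rw [hnk] at lift
      by_cases h1 : i ≤ k
      · refine lift β ?_ (by omega) ?_ ?_
        · rw [if_neg (by omega)]
          rw [if_pos h1] at hM
          rw [← hM]
          have : (β + 1) * (b + 1) = (β + 0) * (b + 1) + (b + 1) := by ring
          omega
        · unfold nexty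
          rwa [if_neg (by omega)]
        · rw [if_pos h1, if_neg (by omega), if_neg hc]
      · have hβ : β ≠ 0 := by
          rintro rfl
          exact hc ⟨i, by omega, hib, hy⟩
        refine lift (β - 1) ?_ (by omega) ?_ ?_
        · rw [if_neg (by omega)]
          rw [if_neg h1] at hM
          rw [← hM]
          have : (β + 0) * (b + 1) = (β - 1 + 0) * (b + 1) + (b + 1) := by
            obtain ⟨c, rfl⟩ := Nat.exists_eq_succ_of_ne_zero hβ
            simp only [Nat.succ_eq_add_one, Nat.add_sub_cancel]
            ring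
          omega
        · unfold nexty
          rw [if_pos ⟨by omega, by omega⟩, show β - 1 + 1 = β by omega]
          exact hy
        · rw [if_neg h1, if_neg (by omega), if_neg hc]
          omega

/-- T2 -/
lemma loc_seq (b k : ℕ) (hk : k ≤ b) (y : ℕ → ℕ → Prop) :
    Loc b k (fun n => seq b n k y) y (fun n => lab b n k y) := by
  refine ⟨fun n hn => lab_rng n k y hn, fun n hn hb => lab_first n k y hn hb,
    fun n m hnm hn hm hb => lab_inc n m k y hnm hn hm hb, ?_⟩
  intro i β hi hib
  constructor
  · intro hy
    exact lab_iff_mpr hi hib _ k y β rfl hk hy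
  · rintro ⟨n, hn, hl, hb⟩
    exact lab_iff_mp hi hib n k y β hn hl hb

/-! ### Thinning and delaying -/

/-- `x'` arises from `x` by deleting ones and by delaying: the ones of `x'` are matched in order
to ones of `x` that are not later, and gaps do not shrink. -/
def Le (x' x : ℕ → Prop) : Prop :=
  ∃ f : ℕ → ℕ, (∀ m, x' m → x (f m) ∧ f m ≤ m) ∧
    ∀ m m', m < m' → x' m → x' m' → f m < f m' ∧ f m' + m ≤ f m + m'

lemma ones_base {x x' : ℕ → Prop} {f : ℕ → ℕ} (h1 : ∀ m, x' m → x (f m) ∧ f m ≤ m)
    (h2 : ∀ m m', m < m' → x' m → x' m' → f m < f m' ∧ f m' + m ≤ f m + m') (n : ℕ) :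
    ones x' n = 0 ∨ ∃ m < n, x' m ∧ ones x' n = ones x' m + 1 ∧ ones x' m ≤ ones x (f m) := by
  induction n with
  | zero => left; exact ones_zero x'
  | succ n ih =>
    by_cases hn : x' n
    · right
      refine ⟨n, by omega, hn, by rw [ones_succ, if_pos hn], ?_⟩
      rcases ih with h | ⟨m, hm, hxm, he, hle⟩
      · rw [h]; omega
      · have := ones_lt x (h2 m n hm hxm hn).1 (h1 m hxm).1
        omega
    · rw [ones_succ, if_neg hn, Nat.add_zero]
      rcases ih with h | ⟨m, hm, hxm, he, hle⟩
      · left; exact h
      · right; exact ⟨m, by omega, hxm, he, hle⟩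

lemma ones_le {x x' : ℕ → Prop} {f : ℕ → ℕ} (h1 : ∀ m, x' m → x (f m) ∧ f m ≤ m)
    (h2 : ∀ m m', m < m' → x' m → x' m' → f m < f m' ∧ f m' + m ≤ f m + m') {n : ℕ}
    (hn : x' n) : ones x' n ≤ ones x (f n) := by
  rcases ones_base h1 h2 n with h | ⟨m, hm, hxm, he, hle⟩
  · omega
  · have := ones_lt x (h2 m n hm hxm hn).1 (h1 m hxm).1
    omega

lemma ones_gap_aux {x x' : ℕ → Prop} {f : ℕ → ℕ} (h1 : ∀ m, x' m → x (f m) ∧ f m ≤ m)
    (h2 : ∀ m m', m < m' → x' m → x' m' → f m < f m' ∧ f m' + m ≤ f m + m') {m : ℕ}
    (hm : x' m) (n : ℕ) (hn : m + 1 ≤ n) :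
    ∃ m'', m ≤ m'' ∧ m'' < n ∧ x' m'' ∧ ones x' n = ones x' m'' + 1 ∧
      ones x' m'' + ones x (f m) ≤ ones x' m + ones x (f m'') := by
  induction n, hn using Nat.le_induction with
  | base => exact ⟨m, le_rfl, by omega, hm, by rw [ones_succ, if_pos hm], le_rfl⟩
  | succ n hmn ih =>
    obtain ⟨u, hu1, hu2, hu3, hu4, hu5⟩ := ih
    by_cases hn : x' n
    · refine ⟨n, by omega, by omega, hn, by rw [ones_succ, if_pos hn], ?_⟩
      have := ones_lt x (h2 u n hu2 hu3 hn).1 (h1 u hu3).1
      omega
    · refine ⟨u, hu1, by omega, hu3, ?_, hu5⟩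
      rw [ones_succ, if_neg hn, Nat.add_zero]
      exact hu4

lemma ones_gap {x x' : ℕ → Prop} {f : ℕ → ℕ} (h1 : ∀ m, x' m → x (f m) ∧ f m ≤ m)
    (h2 : ∀ m m', m < m' → x' m → x' m' → f m < f m' ∧ f m' + m ≤ f m + m') {m n : ℕ}
    (hm : x' m) (hn : x' n) (hmn : m < n) :
    ones x' n + ones x (f m) ≤ ones x' m + ones x (f n) := by
  obtain ⟨u, hu1, hu2, hu3, hu4, hu5⟩ := ones_gap_aux h1 h2 hm n hmn
  have := ones_lt x (h2 u n hu2 hu3 hn).1 (h1 u hu3).1
  omega

lemma blk_gap {x x' : ℕ → Prop} {f : ℕ → ℕ} (h1 : ∀ m, x' m → x (f m) ∧ f m ≤ m)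
    (h2 : ∀ m m', m < m' → x' m → x' m' → f m < f m' ∧ f m' + m ≤ f m + m') {m n : ℕ}
    (hm : x' m) (hn : x' n) (hmn : m < n) :
    blk x (f n) + blk x' m ≤ blk x (f m) + blk x' n := by
  have a := ones_gap h1 h2 hm hn hmn
  have b1 := ones_add_blk x (f n)
  have b2 := ones_add_blk x (f m)
  have b3 := ones_add_blk x' n
  have b4 := ones_add_blk x' m
  have c := (h2 m n hmn hm hn).2
  omega

lemma blk_le {x x' : ℕ → Prop} {f : ℕ → ℕ} (h1 : ∀ m, x' m → x (f m) ∧ f m ≤ m)
    (h2 : ∀ m m', m < m' → x' m → x' m' → f m < f m' ∧ f m' + m ≤ f m + m') {n : ℕ}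
    (hn : x' n) : blk x (f n) ≤ blk x' n := by
  have a := ones_le h1 h2 hn
  have b1 := ones_add_blk x (f n)
  have b3 := ones_add_blk x' n
  have c := (h1 n hn).2
  omega

/-- The closure lemma. -/
lemma Loc.thin {b k : ℕ} {x x' : ℕ → Prop} {y : ℕ → ℕ → Prop} {lam : ℕ → ℕ}
    (h : Loc b k x y lam) (hle : Le x' x) :
    ∃ (z : ℕ → ℕ → Prop) (lam' : ℕ → ℕ), Loc b 0 x' z lam' ∧
      ∀ i, 1 ≤ i → i ≤ b → Le (z i) (y i) := by
  obtain ⟨f, h1, h2⟩ := hle
  have hinc : ∀ m n, m < n → x' m → x' n → blk x' m = blk x' n → lam (f m) < lam (f n) := by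
    intro m n hmn hm hn hb
    have a := blk_gap h1 h2 hm hn hmn
    have c := (h2 m n hmn hm hn).1
    have d := blk_mono x c.le
    exact h.inc _ _ c (h1 m hm).1 (h1 n hn).1 (by omega)
  refine ⟨fun i β => ∃ m, x' m ∧ lam (f m) = i ∧ blk x' m = β, fun m => lam (f m),
    ⟨?_, ?_, hinc, ?_⟩, ?_⟩
  · intro n hn
    exact h.rng _ (h1 n hn).1
  · intro n hn _
    exact (h.rng _ (h1 n hn).1).1
  · intro i β hi hib
    rw [if_neg (by omega)]
    rfl
  · intro i hi hib
    have hch : ∀ β, ∃ m, (∃ m, x' m ∧ lam (f m) = i ∧ blk x' m = β) →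
        x' m ∧ lam (f m) = i ∧ blk x' m = β := by
      intro β
      by_cases hex : ∃ m, x' m ∧ lam (f m) = i ∧ blk x' m = β
      · obtain ⟨m, hm⟩ := hex
        exact ⟨m, fun _ => hm⟩
      · exact ⟨0, fun hc => absurd hc hex⟩
    choose g hg using hch
    have hpos : ∀ m, x' m → lam (f m) = i → (if i ≤ k then 1 else 0) ≤ blk x (f m) := by
      intro m hm hl
      by_cases hik : i ≤ k
      · rw [if_pos hik]
        by_contra hlt
        have := h.first (f m) (h1 m hm).1 (by omega)
        omega
      · rw [if_neg hik]; omega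
    refine ⟨fun β => blk x (f (g β)) - (if i ≤ k then 1 else 0), ?_, ?_⟩
    · intro β hβ
      obtain ⟨a1, a2, a3⟩ := hg β hβ
      have hp := hpos _ a1 a2
      have hle := blk_le h1 h2 a1
      beta_reduce
      refine ⟨?_, by omega⟩
      rw [h.iff i _ hi hib]
      exact ⟨f (g β), (h1 _ a1).1, a2, by omega⟩
    · intro β β' hββ hβ hβ'
      obtain ⟨a1, a2, a3⟩ := hg β hβ
      obtain ⟨c1, c2, c3⟩ := hg β' hβ'
      have hp := hpos _ a1 a2
      have hp' := hpos _ c1 c2
      have hlt : g β < g β' := by
        by_contra hle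
        have := blk_mono x' (show g β' ≤ g β by omega)
        omega
      have hflt := (h2 _ _ hlt a1 c1).1
      have hmono := blk_mono x hflt.le
      have hgap := blk_gap h1 h2 a1 c1 hlt
      have hne : blk x (f (g β)) ≠ blk x (f (g β')) := by
        intro he
        have := h.inc _ _ hflt (h1 _ a1).1 (h1 _ c1).1 he
        omega
      beta_reduce
      omega

lemma Le.shift {z x : ℕ → Prop} (h : Le z x) (h0 : ¬ z 0) :
    Le (fun n => z (n + 1)) x ∨ Le (fun n => z (n + 1)) (fun n => x (n + 1)) := by
  obtain ⟨f, h1, h2⟩ := h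
  by_cases hex : ∃ m, z m
  · -- the first one of `z`
    set m1 := Nat.find hex with hm1
    have hz1 : z m1 := Nat.find_spec hex
    have hmin : ∀ m, z m → m1 ≤ m := fun m hm => Nat.find_min' hex hm
    have hpos : m1 ≠ 0 := by
      intro he
      rw [he] at hz1
      exact h0 hz1
    by_cases hf : f m1 = 0
    · left
      have hlag : ∀ m, z m → f m + 1 ≤ m := by
        intro m hm
        rcases (hmin m hm).lt_or_eq with hlt | heq
        · have := (h2 m1 m hlt hz1 hm).2
          omega
        · rw [← heq]; omega
      refine ⟨fun m => f (m + 1), ?_, ?_⟩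
      · intro m hm
        have := hlag _ hm
        exact ⟨(h1 _ hm).1, by beta_reduce; omega⟩
      · intro m m' hmm hm hm'
        have := h2 (m + 1) (m' + 1) (by omega) hm hm'
        beta_reduce
        omega
    · right
      have hfpos : ∀ m, z m → 1 ≤ f m := by
        intro m hm
        rcases (hmin m hm).lt_or_eq with hlt | heq
        · have := (h2 m1 m hlt hz1 hm).1
          omega
        · rw [← heq]; omega
      refine ⟨fun m => f (m + 1) - 1, ?_, ?_⟩
      · intro m hm
        have a := hfpos _ hm
        have c := h1 _ hm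
        beta_reduce
        refine ⟨?_, by omega⟩
        rw [show f (m + 1) - 1 + 1 = f (m + 1) by omega]
        exact c.1
      · intro m m' hmm hm hm'
        have := h2 (m + 1) (m' + 1) (by omega) hm hm'
        have a := hfpos _ hm
        have a' := hfpos _ hm'
        beta_reduce
        omega
  · left
    refine ⟨fun _ => 0, ?_, ?_⟩
    · intro m hm
      exact absurd ⟨_, hm⟩ hex
    · intro m m' _ hm _
      exact absurd ⟨_, hm⟩ hex

/-! ### Building the new configuration -/

/-- The sequence `x` can be obtained from an escape sequence by thinning and delaying. -/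
def Good (b : List ℕ → ℕ) (x : ℕ → Prop) : Prop :=
  ∃ r : List ℕ → ℕ, (∀ v, r v ≤ b v) ∧ Le x (escSeq b r)

lemma good_false (b : List ℕ → ℕ) : Good b (fun _ => False) :=
  ⟨fun _ => 0, fun _ => Nat.zero_le _, fun _ => 0, fun _ h => h.elim, fun _ _ _ h => h.elim⟩

lemma good_step (b : List ℕ → ℕ) (x : ℕ → Prop) (h : Good b x) :
    ∃ (k : ℕ) (y : ℕ → ℕ → Prop), k ≤ b [] ∧ (∀ n, x n ↔ seq (b []) n k y) ∧
      (¬ x 0 → k = b []) ∧ ∀ i, Good (sub b i) (y i) := by
  obtain ⟨r, hr, hle⟩ := h
  have hseq : escSeq b r = fun n => seq (b []) n (r []) (ys b r) := by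
    funext n
    exact propext (escSeq_local b n r hr)
  rw [hseq] at hle
  obtain ⟨z, lam, hz, hzle⟩ := (loc_seq (b []) (r []) (hr []) (ys b r)).thin hle
  by_cases h0 : x 0
  · refine ⟨0, fun i n => (1 ≤ i ∧ i ≤ b []) ∧ z i n, Nat.zero_le _, ?_,
      fun hn => absurd h0 hn, ?_⟩
    · intro n
      refine Loc.eq_seq n 0 x _ lam ⟨hz.rng, hz.first, hz.inc, ?_⟩
      intro i β hi hib
      rw [← hz.iff i β hi hib]
      simp [hi, hib]
    · intro i
      by_cases hi : 1 ≤ i ∧ i ≤ b []
      · have : (fun n => (1 ≤ i ∧ i ≤ b []) ∧ z i n) = z i := by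
          funext n; simp [hi]
        show Good (sub b i) (fun n => (1 ≤ i ∧ i ≤ b []) ∧ z i n)
        rw [this]
        exact ⟨sub r i, fun v => hr _, hzle i hi.1 hi.2⟩
      · have : (fun n => (1 ≤ i ∧ i ≤ b []) ∧ z i n) = fun _ => False := by
          funext n; simp only [hi, false_and]
        show Good (sub b i) (fun n => (1 ≤ i ∧ i ≤ b []) ∧ z i n)
        rw [this]
        exact good_false _
  · have hz0 : ∀ i, 1 ≤ i → i ≤ b [] → ¬ z i 0 := by
      intro i hi hib hc
      rw [hz.iff i 0 hi hib, if_neg (by omega)] at hc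
      obtain ⟨n, hn, _, hb⟩ := hc
      cases n with
      | zero => exact h0 hn
      | succ n =>
        rw [blk_shift, if_neg h0] at hb
        omega
    refine ⟨b [], fun i n => (1 ≤ i ∧ i ≤ b []) ∧ z i (n + 1), le_rfl, ?_, fun _ => rfl, ?_⟩
    · intro n
      refine Loc.eq_seq n (b []) x _ lam ⟨hz.rng, ?_, hz.inc, ?_⟩
      · intro n hn hb
        cases n with
        | zero => exact absurd hn h0
        | succ n =>
          rw [blk_shift, if_neg h0] at hb
          omega
      · intro i β hi hib
        rw [if_pos hib]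
        have := hz.iff i (β + 1) hi hib
        rw [if_neg (by omega), Nat.add_zero] at this
        rw [← this]
        simp [hi, hib]
    · intro i
      by_cases hi : 1 ≤ i ∧ i ≤ b []
      · have : (fun n => (1 ≤ i ∧ i ≤ b []) ∧ z i (n + 1)) = fun n => z i (n + 1) := by
          funext n; simp [hi]
        show Good (sub b i) (fun n => (1 ≤ i ∧ i ≤ b []) ∧ z i (n + 1))
        rw [this]
        rcases (hzle i hi.1 hi.2).shift (hz0 i hi.1 hi.2) with hl | hl
        · exact ⟨sub r i, fun v => hr _, hl⟩
        · refine ⟨after (sub b i) (sub r i), after_valid _ _ (fun v => hr _), ?_⟩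
          have : escSeq (sub b i) (after (sub b i) (sub r i)) =
              fun n => ys b r i (n + 1) := by
            funext n
            rw [← escSeq_succ]
            rfl
          rw [this]
          exact hl
      · have : (fun n => (1 ≤ i ∧ i ≤ b []) ∧ z i (n + 1)) = fun _ => False := by
          funext n; simp only [hi, false_and]
        show Good (sub b i) (fun n => (1 ≤ i ∧ i ≤ b []) ∧ z i (n + 1))
        rw [this]
        exact good_false _

/-- The rotor chosen at the first vertex. -/
noncomputable def rot (b : List ℕ → ℕ) (x : ℕ → Prop) : ℕ :=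
  if h : Good b x then (good_step b x h).choose else 0

/-- The sequences chosen for the children. -/
noncomputable def chs (b : List ℕ → ℕ) (x : ℕ → Prop) : ℕ → ℕ → Prop :=
  if h : Good b x then (good_step b x h).choose_spec.choose else fun _ _ => False

lemma rot_spec (b : List ℕ → ℕ) (x : ℕ → Prop) (h : Good b x) :
    rot b x ≤ b [] ∧ (∀ n, x n ↔ seq (b []) n (rot b x) (chs b x)) ∧
      (¬ x 0 → rot b x = b []) ∧ ∀ i, Good (sub b i) (chs b x i) := by
  unfold rot chs
  rw [dif_pos h, dif_pos h]
  exact (good_step b x h).choose_spec.choose_spec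

/-- The new configuration. -/
noncomputable def conf : List ℕ → (List ℕ → ℕ) → (ℕ → Prop) → ℕ
  | [], b, x => rot b x
  | i :: l, b, x => conf l (sub b i) (chs b x i)

lemma conf_valid : ∀ (l : List ℕ) (b : List ℕ → ℕ) (x : ℕ → Prop), Good b x →
    conf l b x ≤ b l := by
  intro l
  induction l with
  | nil => intro b x h; exact (rot_spec b x h).1
  | cons i l ih => intro b x h; exact ih (sub b i) _ ((rot_spec b x h).2.2.2 i)

lemma sub_conf (b : List ℕ → ℕ) (x : ℕ → Prop) (i : ℕ) :
    sub (fun l => conf l b x) i = fun l => conf l (sub b i) (chs b x i) := rfl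

lemma return_zero : ∀ (t : ℕ) (b : List ℕ → ℕ) (x : ℕ → Prop), Good b x →
    (walk b (fun l => conf l b x) t).1 = none → ¬ x 0 := by
  intro t
  induction t using Nat.strong_induction_on with
  | _ t ih =>
    intro b x h hw hx
    obtain ⟨_, h2, _, h4⟩ := rot_spec b x h
    obtain ⟨i, hi1, hi2, hi3⟩ := (h2 0).1 hx
    obtain ⟨t', ht', hn⟩ := return_children b t _ hw i hi1 hi2
    rw [sub_conf] at hn
    exact ih t' ht' (sub b i) _ (h4 i) hn hi3

lemma agree_one : ∀ (m n b k : ℕ) (y y' : ℕ → ℕ → Prop),
    (∀ i, k < i → i ≤ b → ∀ j < n, (y i j ↔ y' i j)) →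
    (∀ i, i ≤ k → i ≤ b → ∀ j, j + 1 < n → (y i j ↔ y' i j)) →
    m < n → (seq b m k y ↔ seq b m k y') := by
  intro m
  induction m with
  | zero =>
    intro n b k y y' h1 _ hmn
    have : cand b k y = cand b k y' := by
      ext i
      simp only [cand, Set.mem_ofPred_eq]
      constructor
      · rintro ⟨a1, a2, a3⟩
        exact ⟨a1, a2, (h1 i a1 a2 0 hmn).1 a3⟩
      · rintro ⟨a1, a2, a3⟩
        exact ⟨a1, a2, (h1 i a1 a2 0 hmn).2 a3⟩
    show (cand b k y).Nonempty ↔ (cand b k y').Nonempty
    rw [this]
  | succ m ih =>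
    intro n b k y y' h1 h2 hmn
    have hc : cand b k y = cand b k y' := by
      ext i
      simp only [cand, Set.mem_ofPred_eq]
      constructor
      · rintro ⟨a1, a2, a3⟩
        exact ⟨a1, a2, (h1 i a1 a2 0 (by omega)).1 a3⟩
      · rintro ⟨a1, a2, a3⟩
        exact ⟨a1, a2, (h1 i a1 a2 0 (by omega)).2 a3⟩
    have hnk : RotorWalk.nextk b k y = RotorWalk.nextk b k y' := by
      unfold RotorWalk.nextk; rw [hc]
    have hbd : bound b k y = bound b k y' := by
      unfold bound; rw [hc]
    have key : ∀ i, i ≤ b → ∀ j, j + 1 < n → (nexty b k y i j ↔ nexty b k y' i j) := by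
      intro i hib j hj
      unfold nexty
      rw [← hbd]
      by_cases hi : k < i ∧ i ≤ bound b k y
      · rw [if_pos hi, if_pos hi]
        exact h1 i hi.1 hib (j + 1) hj
      · rw [if_neg hi, if_neg hi]
        by_cases hki : k < i
        · exact h1 i hki hib j (by omega)
        · exact h2 i (by omega) hib j hj
    show seq b m (RotorWalk.nextk b k y) (nexty b k y) ↔
      seq b m (RotorWalk.nextk b k y') (nexty b k y')
    rw [← hnk]
    exact ih (n - 1) b _ _ _ (fun i _ hib j hj => key i hib j (by omega))
      (fun i _ hib j hj => key i hib j (by omega)) (by omega)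

lemma agree_two (m n b k : ℕ) (y y' : ℕ → ℕ → Prop)
    (h1 : ∀ i, k < i → i ≤ b → ∀ j < n, (y i j ↔ y' i j))
    (h2 : ∀ i, i ≤ k → i ≤ b → ∀ j, j + 1 < n → (y i j ↔ y' i j))
    (hmn : m ≤ n) (hn : 0 < n) (hne : (cand b k y).Nonempty) :
    (seq b m k y ↔ seq b m k y') := by
  cases m with
  | zero => exact agree_one 0 n b k y y' h1 h2 hn
  | succ m =>
    have hc : cand b k y = cand b k y' := by
      ext i
      simp only [cand, Set.mem_ofPred_eq]
      constructor
      · rintro ⟨a1, a2, a3⟩
        exact ⟨a1, a2, (h1 i a1 a2 0 (by omega)).1 a3⟩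
      · rintro ⟨a1, a2, a3⟩
        exact ⟨a1, a2, (h1 i a1 a2 0 (by omega)).2 a3⟩
    have hnk : RotorWalk.nextk b k y = RotorWalk.nextk b k y' := by
      unfold RotorWalk.nextk; rw [hc]
    have hbd : bound b k y = bound b k y' := by
      unfold bound; rw [hc]
    have hbd' : bound b k y = RotorWalk.nextk b k y := by
      unfold bound RotorWalk.nextk; rw [if_pos hne, if_pos hne]
    show seq b m (RotorWalk.nextk b k y) (nexty b k y) ↔
      seq b m (RotorWalk.nextk b k y') (nexty b k y')
    rw [← hnk]
    refine agree_one m n b _ _ _ ?_ ?_ (by omega)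
    · intro i hi hib j hj
      unfold nexty
      rw [← hbd, if_neg (by omega), if_neg (by omega)]
      have := nextk_pos hne
      exact h1 i (by omega) hib j hj
    · intro i hi hib j hj
      unfold nexty
      rw [← hbd]
      by_cases hki : k < i
      · rw [if_pos ⟨hki, by omega⟩, if_pos ⟨hki, by omega⟩]
        exact h1 i hki hib (j + 1) hj
      · rw [if_neg (by omega), if_neg (by omega)]
        exact h2 i (by omega) hib j hj

lemma conf_escSeq : ∀ (m : ℕ) (b : List ℕ → ℕ) (x : ℕ → Prop), Good b x →
    (escSeq b (fun l => conf l b x) m ↔ x m) := by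
  intro m
  induction m using Nat.strong_induction_on with
  | _ m ih =>
    intro b x h
    obtain ⟨s1, s2, s3, s4⟩ := rot_spec b x h
    rcases Nat.eq_zero_or_pos m with rfl | hm
    · constructor
      · intro he
        by_contra hx
        have h1 := walk_last b (fun l => conf l b x) (s3 hx)
        exact he 1 (by show (walk b (fun l => conf l b x) 1).1 = none; rw [h1])
      · intro hx t hn
        exact return_zero t b x h hn hx
    · rw [escSeq_local b m _ (fun l => conf_valid l b x h), s2 m]
      have hag : ∀ i, ∀ j < m, (chs b x i j ↔ ys b (fun l => conf l b x) i j) := by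
        intro i j hj
        exact (ih j hj (sub b i) (chs b x i) (s4 i)).symm
      show seq (b []) m (rot b x) _ ↔ seq (b []) m (rot b x) _
      by_cases hx : x 0
      · exact (agree_two m m (b []) (rot b x) _ _ (fun i _ _ j hj => hag i j hj)
          (fun i _ _ j hj => hag i j (by omega)) le_rfl hm ((s2 0).1 hx)).symm
      · -- the rotor is at the last child, so only the smaller indices matter
        have hb := s3 hx
        refine (agree_one m (m + 1) (b []) (rot b x) _ _ ?_ ?_ (by omega)).symm
        · intro i hi hib j _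
          omega
        · intro i _ _ j hj
          exact hag i j (by omega)

/-- The configuration when the particle is back from the first child it has tried. -/
noncomputable def back (b r : List ℕ → ℕ) : List ℕ → ℕ :=
  comb (r [] + 1) (Function.update r [] (r [] + 1))
    (after (sub b (r [] + 1)) (sub r (r [] + 1)))

lemma back_nil (b r : List ℕ → ℕ) : back b r [] = r [] + 1 := by
  simp [back, comb]

lemma back_valid (b r : List ℕ → ℕ) (hlt : r [] < b []) (hr : ∀ u, r u ≤ b u)
    (u : List ℕ) : back b r u ≤ b u := by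
  cases u with
  | nil => rw [back_nil]; omega
  | cons j u =>
    unfold back
    by_cases hj : j = r [] + 1
    · subst hj
      simp only [comb, if_true]
      exact after_valid _ _ (fun w => hr _) u
    · simp only [comb, hj, if_false]
      simpa [Function.update] using hr (j :: u)

/-- The rotors have limiting values. -/
lemma limit_exists : ∀ (v : List ℕ) (b : List ℕ → ℕ) (d : ℕ) (r : List ℕ → ℕ),
    r [] + d = b [] → (∀ u, r u ≤ b u) → ∃ c, ∃ T, ∀ t ≥ T, (walk b r t).2 v = c := by
  intro v
  induction v with
  | nil =>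
    intro b d
    induction d with
    | zero =>
      intro r hd _
      have hw := walk_last b r (by omega)
      exact ⟨(walk b r 1).2 [], 1, fun t ht => by rw [walk_none b r (by rw [hw]) ht]⟩
    | succ d ih =>
      intro r hd hr
      have hlt : r [] < b [] := by omega
      by_cases he : Escapes (sub b (r [] + 1)) (sub r (r [] + 1))
      · refine ⟨r [] + 1, 1, ?_⟩
        intro t ht
        obtain ⟨t, rfl⟩ := Nat.exists_eq_add_of_le' ht
        rw [walk_sub b r hlt t (fun s _ => he s)]
        simp [lift, comb]
      · obtain ⟨τ, hτ, hmin⟩ := exists_min_return _ _ he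
        have hw := sub_returns b r hlt hτ hmin
        obtain ⟨c, T, hc⟩ := ih (back b r) (by rw [back_nil]; omega)
          (back_valid b r hlt hr)
        refine ⟨c, τ + 1 + T, ?_⟩
        intro t ht
        obtain ⟨u, rfl⟩ := Nat.exists_eq_add_of_le (show τ + 1 ≤ t by omega)
        rw [walk_add b r _ hw u]
        exact hc u (by omega)
  | cons j l ihl =>
    intro b d
    induction d with
    | zero =>
      intro r hd _
      have hw := walk_last b r (by omega)
      exact ⟨(walk b r 1).2 (j :: l), 1, fun t ht => by rw [walk_none b r (by rw [hw]) ht]⟩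
    | succ d ih =>
      intro r hd hr
      have hlt : r [] < b [] := by omega
      by_cases he : Escapes (sub b (r [] + 1)) (sub r (r [] + 1))
      · by_cases hj : j = r [] + 1
        · obtain ⟨c, T, hc⟩ := ihl (sub b (r [] + 1)) (sub b (r [] + 1) [] - sub r (r [] + 1) [])
            (sub r (r [] + 1)) (by
              have : sub r (r [] + 1) [] ≤ sub b (r [] + 1) [] := hr _
              omega) (fun w => hr _)
          refine ⟨c, T + 1, ?_⟩
          intro t ht
          obtain ⟨t, rfl⟩ := Nat.exists_eq_add_of_le' (show 1 ≤ t by omega)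
          rw [walk_sub b r hlt t (fun s _ => he s)]
          subst hj
          simp only [lift, comb, if_true]
          exact hc t (by omega)
        · refine ⟨r (j :: l), 1, ?_⟩
          intro t ht
          obtain ⟨t, rfl⟩ := Nat.exists_eq_add_of_le' ht
          rw [walk_sub b r hlt t (fun s _ => he s)]
          simp [lift, comb, hj, Function.update]
      · obtain ⟨τ, hτ, hmin⟩ := exists_min_return _ _ he
        have hw := sub_returns b r hlt hτ hmin
        obtain ⟨c, T, hc⟩ := ih (back b r) (by rw [back_nil]; omega)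
          (back_valid b r hlt hr)
        refine ⟨c, τ + 1 + T, ?_⟩
        intro t ht
        obtain ⟨u, rfl⟩ := Nat.exists_eq_add_of_le (show τ + 1 ≤ t by omega)
        rw [walk_add b r _ hw u]
        exact hc u (by omega)

lemma config_valid (b r : List ℕ → ℕ) (hr : ∀ v, r v ≤ b v) (n : ℕ) (v : List ℕ) :
    config b r n v ≤ b v := by
  induction n generalizing v with
  | zero => exact hr v
  | succ n ih => exact after_valid b _ ih v

/-- For every tree `b` and every rotor configuration `r`, every sequence `e'` below the escape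
sequence of `r` is the escape sequence of some rotor configuration `r'`. Also, for each particle
all rotors have limiting values, so that the configurations `config b r n` are the right ones. -/
theorem result (b r : List ℕ → ℕ) (hr : ∀ v, r v ≤ b v) :
    (∀ e' : ℕ → Prop, (∀ n, e' n → escSeq b r n) →
      ∃ r' : List ℕ → ℕ, (∀ v, r' v ≤ b v) ∧ ∀ n, escSeq b r' n ↔ e' n) ∧
    (∀ n v, ∃ T, ∀ t ≥ T, (walk b (config b r n) t).2 v = config b r (n + 1) v) := by
  refine ⟨?_, ?_⟩
  · intro e' he
    have hgood : Good b e' := by
      refine ⟨r, hr, fun m => m, fun m hm => ⟨he m hm, le_rfl⟩, ?_⟩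
      intro m m' hmm _ _
      beta_reduce
      exact ⟨hmm, by omega⟩
    exact ⟨fun l => conf l b e', fun v => conf_valid v b e' hgood,
      fun n => conf_escSeq n b e' hgood⟩
  · intro n v
    have hv := config_valid b r hr n
    obtain ⟨c, T, hc⟩ := limit_exists v b (b [] - config b r n []) (config b r n)
      (by have := hv []; omega) hv
    refine ⟨T, ?_⟩
    intro t ht
    rw [hc t ht]
    exact (after_eq b _ v hc).symm

end Pool.Agent.Results.MP_4b601f_co.RotorWalk
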